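import Pool.Agent.X159.NF2

/-!
# The NF-number of dumbbell graphs

Positive answer to Q1. All complexes `δ^(k)(B_{n,m})` are invariant under permutations of
`A \ {x₁}` and of `B \ {y₁}`, so they are described by conditions on the type
`(a, b, e, f) = (|F ∩ A \ {x₁}|, |F ∩ B \ {y₁}|, |F ∩ {x₁}|, |F ∩ {y₁}|)`. We determine the whole
orbit: after five explicit steps, `δ^(5+j)` is the complex `QI s` with `s = n + m - 3 - j` for
`0 ≤ j ≤ n + m - 4`, and `δ` of `QI 1` is `B_{n,m}` again. All the complexes `δ^(k)` with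
`2 ≤ k ≤ n + m + 1` have a face with three elements, and `δ^(1)` is a bipartite graph.
-/

set_option autoImplicit false

namespace Pool.Agent.Results.MP_0a7d83_co.NFNumber

open Pool.Agent.X159.NF

/-- For all `n, m ≥ 2` with `(n, m) ≠ (2, 2)`, the NF-number of the dumbbell graph `B_{n,m}` is
`n + m + 2`; moreover `δ^(n+m+2)(B_{n,m}) = B_{n,m}` as complexes on the labelled vertex set. -/
theorem result : ∀ n m : ℕ, 2 ≤ n → 2 ≤ m → (n, m) ≠ (2, 2) →
    delta^[n + m + 2] (ofGraph (dumbbell n m)) = ofGraph (dumbbell n m) ∧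
    IsLeast {q : ℕ | 0 < q ∧ Iso (delta^[q] (ofGraph (dumbbell n m))) (ofGraph (dumbbell n m))}
      (n + m + 2) :=
  main

end Pool.Agent.Results.MP_0a7d83_co.NFNumber
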